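import Pool.Agent.Lib.MP_c718d4_an.H1.Transfer

/-!
# A scattered compact space with strictly convex but no weakly MLUR renorming

There is a scattered compact Hausdorff space `K`, with a countable dense set of isolated points,
such that the Asplund space `C(K)` has an equivalent strictly convex norm, but no equivalent norm
which is midpoint locally uniformly rotund, not even weakly.
-/

open Filter Topology

namespace Pool.Agent.Results.MP_c718d4_an.CompactRenorming

/-- Every separable subspace has a separable dual. -/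
def IsAsplund (X : Type*) [NormedAddCommGroup X] [NormedSpace ℝ X] : Prop :=
  ∀ Y : Submodule ℝ X, TopologicalSpace.SeparableSpace Y →
    TopologicalSpace.SeparableSpace (Y →L[ℝ] ℝ)

/-- An equivalent norm. -/
def IsEquivNorm {X : Type*} [NormedAddCommGroup X] [NormedSpace ℝ X] (q : Seminorm ℝ X) : Prop :=
  ∃ c C : ℝ, 0 < c ∧ 0 < C ∧ ∀ x : X, c * ‖x‖ ≤ q x ∧ q x ≤ C * ‖x‖

/-- Strict convexity: a sum of two unit vectors has norm two only if they are equal. -/
def IsStrictlyConvex {X : Type*} [NormedAddCommGroup X] [NormedSpace ℝ X]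
    (q : Seminorm ℝ X) : Prop :=
  ∀ x y : X, q x = 1 → q y = 1 → q (x + y) = 2 → x = y

/-- Midpoint local uniform rotundity. -/
def IsMLUR {X : Type*} [NormedAddCommGroup X] [NormedSpace ℝ X] (q : Seminorm ℝ X) : Prop :=
  ∀ x : X, q x = 1 → ∀ u : ℕ → X, (∀ n, q (u n) ≤ 1) →
    Tendsto (fun n => q (x + u n)) atTop (𝓝 1) → Tendsto (fun n => q (x - u n)) atTop (𝓝 1) →
    Tendsto (fun n => q (u n)) atTop (𝓝 0)

/-- Weak midpoint local uniform rotundity: the perturbations tend weakly to zero. -/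
def IsWeaklyMLUR {X : Type*} [NormedAddCommGroup X] [NormedSpace ℝ X]
    (q : Seminorm ℝ X) : Prop :=
  ∀ x : X, q x = 1 → ∀ u : ℕ → X, (∀ n, q (u n) ≤ 1) →
    Tendsto (fun n => q (x + u n)) atTop (𝓝 1) → Tendsto (fun n => q (x - u n)) atTop (𝓝 1) →
    ∀ φ : X →L[ℝ] ℝ, Tendsto (fun n => φ (u n)) atTop (𝓝 0)

theorem result :
    ∃ (K : Type) (_ : TopologicalSpace K) (_ : CompactSpace K) (_ : T2Space K),
      (∃ D : Set K, D.Countable ∧ Dense D ∧ ∀ d ∈ D, IsOpen {d}) ∧
      (∀ S : Set K, S.Nonempty → ∃ p ∈ S, ∃ U : Set K, IsOpen U ∧ U ∩ S = {p}) ∧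
      IsAsplund C(K, ℝ) ∧
      (∃ p : Seminorm ℝ C(K, ℝ), IsEquivNorm p ∧ IsStrictlyConvex p) ∧
      ∀ q : Seminorm ℝ C(K, ℝ), IsEquivNorm q → ¬ IsMLUR q ∧ ¬ IsWeaklyMLUR q := by
  refine ⟨Pool.Agent.Lib.MP_c718d4_an.KK, inferInstance, inferInstance, inferInstance,
    ⟨Set.range Pool.Agent.Lib.MP_c718d4_an.pt, Set.countable_range _,
      Pool.Agent.Lib.MP_c718d4_an.dense_pt, ?_⟩,
    Pool.Agent.Lib.MP_c718d4_an.scattered_KK,
    fun Y hY => Pool.Agent.Lib.MP_c718d4_an.asplund_CK Y hY,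
    ⟨Pool.Agent.Lib.MP_c718d4_an.scK, Pool.Agent.Lib.MP_c718d4_an.scK_equiv,
      Pool.Agent.Lib.MP_c718d4_an.scK_strict⟩, ?_⟩
  · rintro _ ⟨n, rfl⟩
    exact Pool.Agent.Lib.MP_c718d4_an.isOpen_pt n
  · rintro q ⟨c, C, hc, hC, hq⟩
    obtain ⟨x, u, φ, hx, hu, t1, t2, hφ⟩ := Pool.Agent.Lib.MP_c718d4_an.wm_CK q hc hC hq
    have hno : ¬ Tendsto (fun n => φ (u n)) atTop (𝓝 0) := by
      intro h
      simp only [hφ] at h
      have h1 := tendsto_nhds_unique h tendsto_const_nhds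
      norm_num at h1
    refine ⟨fun hM => hno ?_, fun hM => hno (hM x hx u hu t1 t2 φ)⟩
    have h1 := hM x hx u hu t1 t2
    have h2 : Tendsto (fun n => u n) atTop (𝓝 0) := by
      rw [tendsto_zero_iff_norm_tendsto_zero]
      have h3 : Tendsto (fun n => c⁻¹ * q (u n)) atTop (𝓝 0) := by
        have := h1.const_mul c⁻¹
        rwa [mul_zero] at this
      refine squeeze_zero (fun n => norm_nonneg _) (fun n => ?_) h3
      rw [le_inv_mul_iff₀ hc]
      exact (hq (u n)).1
    have h4 := (φ.continuous.tendsto 0).comp h2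
    rwa [map_zero] at h4

end Pool.Agent.Results.MP_c718d4_an.CompactRenorming
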